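import Pool.Agent.H90.DG.Main
import Pool.Agent.H8.SR.Main

/-!
Khot's d-to-1 conjecture: the exact exponent of the basic semidefinite relaxation of satisfiable
d-to-1 Label Cover.  Every instance with a value-one solution of the relaxation has value at least
`R ^ (-(√d - 1) / (√d + 1))` up to a factor of the order of `log R`, and for every power of two
`d` there are such instances of value at most `2 R ^ (-(√d - 1) / (√d + 1))`.
-/

namespace Pool.Agent.Results.MP_62e2f2_lc.ExactSdpExponent

open Finset Pool.Agent.H76.DTO

noncomputable section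

/-- **The exact exponent of the basic semidefinite relaxation with perfect completeness.**
(a) For every `d ≥ 1` and `R`, every d-to-1 instance (with at least one edge) with `R` left labels
and a value-one solution of the plain basic relaxation has value at least
`R ^ (-(√d - 1) / (√d + 1)) / (10 ^ 7 * d ^ 5 * (1 + log R))`.
(b) For every power of two `D = 2 ^ m ≤ d` and every number `R = 2 ^ k` of left labels there is a
d-to-1 instance with a value-one solution whose vertex sums all equal one unit vector, with second
singular value at most `1 / D` and with value at most `2 R ^ (-(√D - 1) / (√D + 1))`. -/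
theorem result :
    (∀ (d R N : ℕ) (V W : Type) [Fintype V] [Fintype W] (Φ : LabelCover V W d R), 0 < d →
      Φ.E.Nonempty → Nonempty (PerfectSolution Φ N) →
        (R : ℝ) ^ (-((√(d : ℝ) - 1) / (√(d : ℝ) + 1))) /
          (10 ^ 7 * (d : ℝ) ^ 5 * (1 + Real.log R)) ≤ Φ.value) ∧
    ∀ m k d : ℕ, 2 ^ m ≤ d →
      ∃ (V W : Type) (_ : Fintype V) (_ : Fintype W) (Φ : LabelCover V W d (2 ^ k)) (N : ℕ),
        Φ.E.Nonempty ∧ Φ.SecondSingular (1 / 2 ^ m) ∧ (∃ S : PerfectSolution Φ N, S.CommonSum) ∧
          Φ.value ≤
            2 * ((2 : ℝ) ^ k) ^ (-((√((2 : ℝ) ^ m) - 1) / (√((2 : ℝ) ^ m) + 1))) :=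
  ⟨fun _ _ _ _ _ _ _ Φ hd hE ⟨S⟩ => Pool.Agent.H8.SR.rounding hd Φ hE S,
    fun m k d hd => Pool.Agent.H90.DG.main m k d hd⟩

end

end Pool.Agent.Results.MP_62e2f2_lc.ExactSdpExponent
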