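import Pool.Agent.H90.RC.Main

/-!
Khot's d-to-1 conjecture in a restricted model of computation: exponential size of the monotone real
circuits which separate satisfiable d-to-1 Label Cover instances from instances of value
`O(log (d R) / R)`, for every `d ≥ 2`.

Definitions used in the statement:
* `Pool.H66.RZ.LabelCover V W d R` (file `Pool/Agent/H66/RZ/Defs.lean`): a d-to-1 Label Cover
  instance with edge set `E` in `V × W`, left labels `Fin R`, right labels `Fin (d * R)` and maps
  `π e : Fin (d * R) → Fin R` with at most `d` preimages of every left label for `e ∈ E`;
  `LabelCover.value`: the maximum over all labellings of the fraction of satisfied edges;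
  `Var N d R = Fin N × Fin N × (Fin (d * R) → Fin R)`: one Boolean input variable for every possible
  constraint; `LabelCover.enc`: the variable `(v, w, τ)` is true if and only if `(v, w)` is an edge
  and its map is `τ`.
* `Pool.H90.RC.RCircuit ι` (file `Pool/Agent/H90/RC/Defs.lean`): a monotone real circuit over the
  Boolean variables `ι` (read as `0`, `1`): a list of gates, each of which applies a function
  `ℝ → ℝ → ℝ` that is nondecreasing in both variables (for example `min`, `max`) to two earlier
  values (inputs, real constants, earlier gates); `size`: the number of gates.
* `Pool.H90.RC.RSeparates K ε`: the output of `K` on every instance of value less than `ε` is larger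
  than its output on every instance of value `1` (nonempty edge sets).
-/

namespace Pool.Agent.Results.MP_62e2f2_lc.MonotoneRealCircuits

open Pool.H66.RZ Pool.H90.RC

/-- There is an absolute constant `C` such that for all `d, R ≥ 2`, all `ε` with
`C log (d R) / R ≤ ε ≤ 1` and all `δ < 1/3`, for all large `N`: every monotone real circuit whose
output on every d-to-1 Label Cover instance of value less than `ε` (with `N` left and `N` right
vertices and label sets of sizes `R` and `d R`) is larger than its output on every such instance of
value `1` has at least `exp (N^δ)` gates. -/
theorem result : ∃ C : ℝ, 0 < C ∧ ∀ d R : ℕ, 2 ≤ d → 2 ≤ R → ∀ ε : ℝ,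
    C * Real.log (d * R) / R ≤ ε → ε ≤ 1 → ∀ δ : ℝ, δ < 1 / 3 → ∃ N₀ : ℕ, ∀ N ≥ N₀,
      ∀ K : RCircuit (Var N d R), RSeparates K ε → Real.exp ((N : ℝ) ^ δ) ≤ K.size :=
  rmain

end Pool.Agent.Results.MP_62e2f2_lc.MonotoneRealCircuits
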