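import Pool.Agent.H90.RC.Main
import Pool.Agent.H87.PR.RProm

/-!
Khot's d-to-1 conjecture in a restricted model of computation: exponential size of the monotone real
circuits which separate satisfiable d-to-1 Label Cover instances from those instances of small value
which the combined semidefinite and affine integer relaxation accepts.

Definitions used in the statement:
* `Pool.H66.RZ.LabelCover V W d R` (file `Pool/Agent/H66/RZ/Defs.lean`): a d-to-1 Label Cover
  instance with edge set `E` in `V × W`, left labels `Fin R`, right labels `Fin (d * R)` and maps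
  `π e : Fin (d * R) → Fin R` with at most `d` preimages of every left label for `e ∈ E`;
  `LabelCover.value`: the maximum over all labellings of the fraction of satisfied edges;
  `Var N d R = Fin N × Fin N × (Fin (d * R) → Fin R)`: one Boolean input variable for every possible
  constraint; `LabelCover.enc`: the variable `(v, w, τ)` is true if and only if `(v, w)` is an edge
  and its map is `τ`.
* `Pool.H90.RC.RCircuit ι` (file `Pool/Agent/H90/RC/Defs.lean`): a monotone real circuit over the
  Boolean variables `ι` (read as `0`, `1`): a list of gates, each of which applies a function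
  `ℝ → ℝ → ℝ` that is nondecreasing in both variables (for example `min`, `max`) to two earlier
  values (inputs, real constants, earlier gates); `size`: the number of gates.
* `Pool.H87.PR.SdpAipAccepts Φ` (file `Pool/Agent/H87/PR/PromDefs.lean`): `Φ` has a perfect solution
  of the basic semidefinite relaxation with the same unit vector as sum at every vertex
  (`SdpSolution`) and an integral solution of the affine relaxation (`AipSolution`) which is zero on
  all labels whose vector is zero.
* `Pool.H87.PR.RSeparatesOn K ε P` (file `Pool/Agent/H87/PR/RSubst.lean`): the output of `K` on every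
  instance of value at most `ε` which satisfies `P` is larger than its output on every instance of
  value `1` (nonempty edge sets).
-/

namespace Pool.Agent.Results.MP_62e2f2_lc.RealCircuitsSdpAip

open Pool.H66.RZ Pool.H90.RC Pool.H87.PR

/-- For every `d ≥ 2` and every large `n` there is `R` with `n ≤ R ≤ 9 n` such that (a) for all large
`N` there is a d-to-1 Label Cover instance (with `N` left and `N` right vertices and label sets of
sizes `R` and `d R`) of value at most `12 R^(-1/15)` accepted by the combined semidefinite and affine
relaxation, and (b) for every `δ < 1/3` and all large `N`: every monotone real circuit whose output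
is larger on all instances of value at most `12 R^(-1/15)` accepted by the combined relaxation than on
all instances of value `1` has at least `exp (N^δ)` gates. -/
theorem result : ∀ d : ℕ, 2 ≤ d → ∃ n₁ : ℕ, ∀ n ≥ n₁, ∃ R : ℕ,
    n ≤ R ∧ R ≤ 9 * n ∧
      (∃ N₀ : ℕ, ∀ N ≥ N₀, ∃ Φ : LabelCover (Fin N) (Fin N) d R,
        Φ.E.Nonempty ∧ Φ.value ≤ 12 * (R : ℝ) ^ (-(1 / 15) : ℝ) ∧ SdpAipAccepts Φ) ∧
      ∀ δ : ℝ, δ < 1 / 3 → ∃ N₁ : ℕ, ∀ N ≥ N₁,
        ∀ K : RCircuit (Var N d R),
          RSeparatesOn K (12 * (R : ℝ) ^ (-(1 / 15) : ℝ)) SdpAipAccepts →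
            Real.exp ((N : ℝ) ^ δ) ≤ K.size := by
  intro d hd
  obtain ⟨n₁, h⟩ := rsdp_aip rmain d hd
  refine ⟨n₁, fun n hn => ?_⟩
  obtain ⟨R, h1, h2, h3⟩ := h n hn
  refine ⟨R, h1, h2, ?_, h3⟩
  obtain ⟨N₁, hN⟩ := h3 0 (by norm_num)
  refine ⟨N₁, fun N hNN => ?_⟩
  by_contra hno
  have h4 := hN N hNN ⟨[], .const 0⟩
    (fun Φ Ψ _ _ hE hv hP => absurd ⟨Ψ, hE, hv, hP⟩ hno)
  have h5 : (((⟨[], .const 0⟩ : RCircuit (Var N d R)).size : ℕ) : ℝ) = 0 := by
    simp [RCircuit.size]
  rw [h5] at h4
  exact absurd h4 (not_le.2 (Real.exp_pos _))

end Pool.Agent.Results.MP_62e2f2_lc.RealCircuitsSdpAip
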