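import Pool.Agent.H76.DTO.SharpLower
import Pool.Agent.H18.DTO.Rank
import Pool.Agent.H25.DTO.Pad

/-!
Khot's d-to-1 conjecture: the critical second singular value of the basic semidefinite relaxation of
d-to-1 Label Cover with perfect completeness is `1 / d`, and at this value the gap is polynomial in
the number of labels.
-/

namespace Pool.Agent.Results.MP_62e2f2_lc.SharpThreshold

open Finset Pool.Agent.H76.DTO

noncomputable section

lemma gap_of_primePow (p : ℕ) (hp : IsPrimePow p) (k : ℕ) :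
    ∃ (V W : Type) (_ : Fintype V) (_ : Fintype W) (Φ : LabelCover V W p (p ^ k)) (N : ℕ),
      Φ.E.Nonempty ∧ Φ.SecondSingular (1 / p) ∧ (∃ S : PerfectSolution Φ N, S.CommonSum) ∧
        Φ.value ≤ 2 * (p : ℝ) * ((p : ℝ) ^ k) ^
          (-(Real.log p / (4 * Real.log (5 / 2 * p)))) := by
  obtain ⟨r, l, hr, hl, rfl⟩ := (isPrimePow_nat_iff p).1 hp
  have : Fact r.Prime := ⟨hr⟩
  have : Fintype (GaloisField r l) := Fintype.ofFinite _
  have hc : Fintype.card (GaloisField r l) = r ^ l := by
    rw [← Nat.card_eq_fintype_card, GaloisField.card r l hl.ne']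
  have h := Pool.Agent.H18.DTO.upper' (GaloisField r l) k
  rw [hc] at h
  exact h

/-- **The basic semidefinite relaxation of d-to-1 Label Cover with perfect completeness has bounded
gap when the second singular value of the constraint graph is below `1 / d`, and has gap polynomial
in the number of labels at second singular value `1 / p`, for every prime power `p` dividing `d`**
(for prime powers `d`, at second singular value `1 / d`). -/
theorem result :
    (∀ (d : ℕ), 0 < d → ∀ σ : ℝ, 0 ≤ σ → σ < 1 / d →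
      ∀ (V W : Type) [Fintype V] [Fintype W] (R N : ℕ) (Φ : LabelCover V W d R),
        Φ.E.Nonempty → Φ.SecondSingular σ → Nonempty (PerfectSolution Φ N) →
          (1 / d - σ) ^ 4 ≤ Φ.value) ∧
    (∀ d p : ℕ, 0 < d → IsPrimePow p → p ∣ d → ∀ k : ℕ,
      ∃ (V W : Type) (_ : Fintype V) (_ : Fintype W) (Φ : LabelCover V W d (p ^ k)) (N : ℕ),
        Φ.E.Nonempty ∧ Φ.SecondSingular (1 / p) ∧ (∃ S : PerfectSolution Φ N, S.CommonSum) ∧
          Φ.value ≤ 2 * (p : ℝ) * ((p : ℝ) ^ k) ^
            (-(Real.log p / (4 * Real.log (5 / 2 * p))))) := by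
  constructor
  · intro d hd σ hσ hσd V W _ _ R N Φ hE hs hS
    obtain ⟨S⟩ := hS
    exact lower_bound hd Φ hE σ hσ hσd hs S
  · rintro d p hd0 hp ⟨m, hd⟩ k
    obtain ⟨V, W, hV, hW, Φ, N, hE, hσ, ⟨S, hS⟩, hval⟩ := gap_of_primePow p hp k
    have hp0 : 0 < p := hp.pos
    have hm : 0 < m := Nat.pos_of_ne_zero (by rintro rfl; omega)
    refine ⟨V, W, hV, hW, Pool.Agent.H25.DTO.pad m hd Φ, N, hE, hσ,
      ⟨Pool.Agent.H25.DTO.padSol m hm hd Φ S, Pool.Agent.H25.DTO.padSol_common m hm hd Φ S hS⟩, ?_⟩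
    exact (Pool.Agent.H25.DTO.pad_value m hm hd Φ (pow_pos hp0 k) hp0).trans hval

end

end Pool.Agent.Results.MP_62e2f2_lc.SharpThreshold
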